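import Pool.Agent.Y788.SL.Stm

set_option autoImplicit false

/-!
# Project SL, job U: upper triangular elements of `SL_n(F)`, `F` of characteristic two
-/

namespace Pool.Agent.Y443.SL

open Matrix Pool.Agent.H302R2 Pool.Agent.Y788.SL

variable {F : Type} [Field F] {n : ℕ}

/-- rows with a nonzero entry to the right of the diagonal -/
noncomputable def rows (M : Matrix (Fin n) (Fin n) F) : Finset (Fin n) :=
  open Classical in Finset.univ.filter fun i => ∃ j, i < j ∧ M i j ≠ 0

lemma mem_rows {M : Matrix (Fin n) (Fin n) F} {i : Fin n} :
    i ∈ rows M ↔ ∃ j, i < j ∧ M i j ≠ 0 := by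
  classical
  simp [rows]

lemma exists_tv (hn : 2 ≤ n) : ∃ g : SpecialLinearGroup (Fin n) F, IsTv g := by
  let i0 : Fin n := ⟨0, by omega⟩
  let i1 : Fin n := ⟨1, by omega⟩
  have h01 : i0 ≠ i1 := by intro h; simp [i0, i1, Fin.ext_iff] at h
  refine ⟨⟨Matrix.transvection i0 i1 1, Matrix.det_transvection_of_ne i0 i1 h01 1⟩,
    Pi.single i0 1, Pi.single i1 1, ?_, ?_, ?_, ?_⟩
  · intro h
    have := congrFun h i0
    simp at this
  · intro h
    have := congrFun h i1
    simp at this
  · rw [dotProduct_single, Pi.single_eq_of_ne h01, zero_mul]
  · ext a b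
    simp only [Matrix.transvection, Matrix.add_apply, vecMulVec_apply, Matrix.single_apply]
    by_cases ha : i0 = a <;> by_cases hb : i1 = b <;>
      simp [ha, hb, Pi.single_apply, eq_comm]

theorem t_U : SE → SG → ST → SU := by
  intro hE hG hT F _ _ _ n θ hθ f hf
  classical
  set ε : ℝ := ((θ 1).re - f) / Nat.card F with hε
  -- the main induction
  have key : 0 ≤ ε → ∀ k : ℕ, ∀ g : SpecialLinearGroup (Fin n) F,
      (∀ i j : Fin n, j < i → (g : Matrix (Fin n) (Fin n) F) i j = 0) → ¬ IsSc g →
      (rows (g : Matrix (Fin n) (Fin n) F)).card = k →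
      ‖θ g - (f : ℂ)‖ ≤ (k + 10 * n + 5) * ε := by
    intro hε0 k
    induction k with
    | zero =>
      intro g hg hsc hk
      have hr : ∀ i j : Fin n, i < j → (g : Matrix (Fin n) (Fin n) F) i j = 0 := by
        intro i j hij
        by_contra hne
        have : i ∈ rows (g : Matrix (Fin n) (Fin n) F) := mem_rows.2 ⟨j, hij, hne⟩
        rw [Finset.card_eq_zero.1 hk] at this
        simp at this
      have hd : (g : Matrix (Fin n) (Fin n) F) =
          Matrix.diagonal fun i => (g : Matrix (Fin n) (Fin n) F) i i := by
        ext i j
        rcases lt_trichotomy i j with h | h | h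
        · rw [hr i j h, Matrix.diagonal_apply_ne _ h.ne]
        · subst h; rw [Matrix.diagonal_apply_eq]
        · rw [hg i j h, Matrix.diagonal_apply_ne _ h.ne']
      have hne : ∃ i j, (g : Matrix (Fin n) (Fin n) F) i i ≠
          (g : Matrix (Fin n) (Fin n) F) j j := by
        by_contra hcon
        push Not at hcon
        apply hsc
        rcases Nat.eq_zero_or_pos n with h0 | hpos
        · subst h0
          exact ⟨1, Subsingleton.elim _ _⟩
        · refine ⟨(g : Matrix (Fin n) (Fin n) F) ⟨0, hpos⟩ ⟨0, hpos⟩, ?_⟩
          rw [hd]
          ext i j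
          by_cases hij : i = j
          · subst hij
            simp [hcon i ⟨0, hpos⟩]
          · simp [Matrix.diagonal_apply_ne _ hij, hij]
      have h1 := hG F n θ hθ f hf g _ hd hne
      rw [← hε] at h1
      refine h1.trans ?_
      push_cast
      nlinarith
    | succ k ih =>
      intro g hg hsc hk
      set M : Matrix (Fin n) (Fin n) F := (g : Matrix (Fin n) (Fin n) F) with hM
      have hnon : (rows M).Nonempty := by
        rw [← Finset.card_pos, hk]; omega
      set r : Fin n := (rows M).min' hnon with hrdef
      have hr : r ∈ rows M := Finset.min'_mem _ _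
      have hlt : ∀ i j : Fin n, i < r → i < j → M i j = 0 := by
        intro i j hi hij
        by_contra hne
        have h1 : i ∈ rows M := mem_rows.2 ⟨j, hij, hne⟩
        exact absurd (Finset.min'_le _ _ h1) (not_le.2 hi)
      have hcol : ∀ i : Fin n, i ≠ r → M i r = 0 := by
        intro i hi
        rcases lt_or_gt_of_ne hi with h | h
        · exact hlt i r h h
        · exact hg i r h
      have hev : M *ᵥ (Pi.single r 1) = M r r • (Pi.single r 1 : Fin n → F) := by
        ext i
        rw [mulVec_single_one, Pi.smul_apply, Matrix.col_apply]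
        by_cases hi : i = r
        · subst hi; simp
        · rw [hcol i hi, Pi.single_eq_of_ne hi, smul_zero]
      have hv0 : (Pi.single r 1 : Fin n → F) ≠ 0 := by
        intro h
        have := congrFun h r
        simp at this
      set ψ : Fin n → F := fun j => if r < j then M r j else 0 with hψ
      have hψr : ψ r = 0 := by simp [hψ]
      have hdet : M.det = 1 := g.2
      have htri : M.BlockTriangular id := fun i j hij => hg i j hij
      have hdiag : ∏ i, M i i = 1 := by rw [← Matrix.det_of_isUpperTriangular htri, hdet]
      -- the new element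
      set M' : Matrix (Fin n) (Fin n) F := M + vecMulVec (Pi.single r 1) (-ψ) with hM'
      have hM'r : ∀ j, M' r j = M r j - ψ j := by
        intro j
        rw [hM', Matrix.add_apply, vecMulVec_apply]
        simp [sub_eq_add_neg]
      have hM'o : ∀ i j, i ≠ r → M' i j = M i j := by
        intro i j hi
        rw [hM', Matrix.add_apply, vecMulVec_apply, Pi.single_eq_of_ne hi]
        simp
      have hM'd : ∀ i, M' i i = M i i := by
        intro i
        by_cases hi : i = r
        · subst hi; rw [hM'r, hψr, sub_zero]
        · exact hM'o i i hi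
      have htri' : ∀ i j : Fin n, j < i → M' i j = 0 := by
        intro i j hij
        by_cases hi : i = r
        · subst hi
          rw [hM'r, hg _ _ hij]
          simp [hψ, not_lt.2 hij.le]
        · rw [hM'o i j hi, hg i j hij]
      have hdet' : M'.det = 1 := by
        rw [Matrix.det_of_isUpperTriangular (fun i j hij => htri' i j hij)]
        simp_rw [hM'd]
        exact hdiag
      set g' : SpecialLinearGroup (Fin n) F := ⟨M', hdet'⟩ with hg'
      have hrows' : rows M' = (rows M).erase r := by
        ext i
        rw [Finset.mem_erase, mem_rows, mem_rows]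
        constructor
        · rintro ⟨j, hij, hj⟩
          by_cases hi : i = r
          · subst hi
            exfalso
            apply hj
            rw [hM'r]
            simp [hψ, hij]
          · exact ⟨hi, j, hij, by rwa [hM'o i j hi] at hj⟩
        · rintro ⟨hi, j, hij, hj⟩
          exact ⟨j, hij, by rwa [hM'o i j hi]⟩
      have hcard' : (rows M').card = k := by
        rw [hrows', Finset.card_erase_of_mem hr, hk]; rfl
      -- the main case
      have main : ¬ IsSc g' → (∃ w : Fin n → F, ∀ c : F, M *ᵥ w - M r r • w ≠
          c • (Pi.single r 1 : Fin n → F)) →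
          ‖θ g - (f : ℂ)‖ ≤ ((k + 1 : ℕ) + 10 * n + 5) * ε := by
        intro hs hw
        have h1 := hE F n θ hθ f hf g g' (Pi.single r 1) (-ψ) (M r r) hv0 hev hw
          (by rw [dotProduct_single]; simp [hψr]) rfl
        rw [← hε] at h1
        have h2 := ih g' htri' hs hcard'
        have h3 : θ g - (f : ℂ) = (θ g - θ g') + (θ g' - f) := by ring
        rw [h3]
        refine (norm_add_le _ _).trans ((add_le_add h1 h2).trans ?_)
        push_cast
        nlinarith
      by_cases hA : ∃ j ∈ rows M, j ≠ r
      · obtain ⟨j, hj, hjr⟩ := hA
        obtain ⟨l, hjl, hl⟩ := mem_rows.1 hj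
        apply main
        · rintro ⟨c, hc⟩
          have h1 : M' j l = (c • (1 : Matrix (Fin n) (Fin n) F)) j l := by rw [← hc]
          rw [hM'o j l hjr] at h1
          apply hl
          rw [h1]
          simp [hjl.ne]
        · refine ⟨Pi.single l 1, fun c hc => ?_⟩
          have h1 := congrFun hc j
          rw [mulVec_single_one] at h1
          simp only [Pi.sub_apply, Pi.smul_apply, Matrix.col_apply, Pi.single_eq_of_ne hjl.ne,
            Pi.single_eq_of_ne hjr, smul_zero, sub_zero] at h1
          exact hl h1
      · push Not at hA
        by_cases hB : ∃ j, M j j ≠ M r r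
        · obtain ⟨j, hj⟩ := hB
          have hjr : j ≠ r := by rintro rfl; exact hj rfl
          apply main
          · rintro ⟨c, hc⟩
            have h1 : ∀ i, M' i i = c := by
              intro i
              have : M' i i = (c • (1 : Matrix (Fin n) (Fin n) F)) i i := by rw [← hc]
              rw [this]; simp
            apply hj
            rw [← hM'd j, ← hM'd r, h1, h1]
          · refine ⟨Pi.single j 1, fun c hc => ?_⟩
            have h1 := congrFun hc j
            rw [mulVec_single_one] at h1
            simp only [Pi.sub_apply, Pi.smul_apply, Matrix.col_apply, Pi.single_eq_same,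
              Pi.single_eq_of_ne hjr, smul_zero, smul_eq_mul, mul_one] at h1
            rw [mul_zero] at h1
            exact hj (sub_eq_zero.1 h1)
        · push Not at hB
          set c : F := M r r with hc
          have hc0 : c ≠ 0 := by
            intro h0
            have h1 : ∏ i, M i i = 0 := Finset.prod_eq_zero (Finset.mem_univ r) h0
            rw [hdiag] at h1
            exact one_ne_zero h1
          have hform : M = c • (1 + vecMulVec (Pi.single r 1) (c⁻¹ • ψ)) := by
            ext i j
            rw [Matrix.smul_apply, Matrix.add_apply, vecMulVec_apply, Pi.smul_apply]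
            by_cases hi : i = r
            · subst hi
              rw [Pi.single_eq_same, smul_eq_mul, smul_eq_mul]
              rcases lt_trichotomy r j with h | h | h
              · rw [Matrix.one_apply_ne h.ne]
                simp only [hψ, if_pos h]
                field_simp
                ring
              · rw [← h, Matrix.one_apply_eq, hψr]
                simp [hc]
              · rw [hg _ _ h, Matrix.one_apply_ne h.ne']
                simp [hψ, not_lt.2 h.le]
            · rw [Pi.single_eq_of_ne hi, zero_mul, add_zero]
              rcases lt_trichotomy i j with h | h | h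
              · rw [Matrix.one_apply_ne h.ne, smul_zero]
                by_contra hne
                exact hi (hA i (mem_rows.2 ⟨j, h, hne⟩))
              · rw [← h, Matrix.one_apply_eq, hB i]; simp
              · rw [hg _ _ h, Matrix.one_apply_ne h.ne', smul_zero]
          have hψ0 : c⁻¹ • ψ ≠ 0 := by
            intro h0
            obtain ⟨j, hj, hne⟩ := mem_rows.1 hr
            have h1 := congrFun h0 j
            rw [Pi.smul_apply, Pi.zero_apply, smul_eq_mul] at h1
            rcases mul_eq_zero.1 h1 with h2 | h2
            · exact (inv_ne_zero hc0) h2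
            · simp only [hψ, if_pos hj] at h2
              exact hne h2
          have h1 := hT F n θ hθ f hf g c (Pi.single r 1) (c⁻¹ • ψ) hv0 hψ0
            (by rw [dotProduct_single]; simp [hψr]) hform
          rw [← hε] at h1
          refine h1.trans ?_
          push_cast
          have hk0 : (0 : ℝ) ≤ k := Nat.cast_nonneg k
          nlinarith
  intro g hg hsc
  have hn : 2 ≤ n := by
    by_contra hlt
    apply hsc
    rcases Nat.lt_or_ge n 1 with h | h
    · have h0 : n = 0 := by omega
      subst h0
      exact ⟨1, Subsingleton.elim _ _⟩
    · have h1 : n = 1 := by omega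
      subst h1
      refine ⟨(g : Matrix (Fin 1) (Fin 1) F) 0 0, ?_⟩
      ext i j
      rw [Subsingleton.elim i 0, Subsingleton.elim j 0]
      simp
  have hε0 : 0 ≤ ε := by
    obtain ⟨t, ht⟩ := exists_tv (F := F) hn
    have h1 := hθ.norm_le t
    rw [hf t ht] at h1
    have h2 : f ≤ ‖((f : ℝ) : ℂ)‖ := by
      rw [Complex.norm_real]; exact le_abs_self f
    rw [hε]
    apply div_nonneg _ (Nat.cast_nonneg _)
    linarith
  have h1 := key hε0 _ g hg hsc rfl
  refine h1.trans ?_
  have h2 : (rows (g : Matrix (Fin n) (Fin n) F)).card ≤ n - 1 := by
    have h3 : rows (g : Matrix (Fin n) (Fin n) F) ⊆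
        Finset.univ.erase (⟨n - 1, by omega⟩ : Fin n) := by
      intro i hi
      obtain ⟨j, hij, -⟩ := mem_rows.1 hi
      rw [Finset.mem_erase]
      refine ⟨?_, Finset.mem_univ _⟩
      rintro rfl
      have := j.2
      rw [Fin.lt_def] at hij
      simp only at hij
      omega
    have h4 := Finset.card_le_card h3
    rwa [Finset.card_erase_of_mem (Finset.mem_univ _), Finset.card_univ, Fintype.card_fin] at h4
  have h3 : ((rows (g : Matrix (Fin n) (Fin n) F)).card : ℝ) + 1 ≤ n := by
    have : (rows (g : Matrix (Fin n) (Fin n) F)).card + 1 ≤ n := by omega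
    exact_mod_cast this
  have h4 : (2 : ℝ) ≤ n := by exact_mod_cast hn
  nlinarith

end Pool.Agent.Y443.SL
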